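import Mathlib
import Pool.Agent.U178.WF.DichG
import Pool.Agent.U178.WF.Rat

/-!
# Entire curves with few ramification points in open varieties and images of the multiplicative group

Let `X` be the complement of a hypersurface `Q = 0` in the set `X'` of zeros, in complex projective
`N`-space, of any set of forms; `Q` and these forms are of degree at most `D`.

**Theorem.** (1) For all `M` and `e` there are numbers `B` and `C`, which depend only on `N`, `D`, `M`
and `e`, such that every entire curve `f = P(G)` in `X'` which is not contained in `Q = 0`, where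
`G = (G_0, …, G_M)` are entire functions and `P` is given by forms of degree `e`, satisfies

`T_f(r) ≤ C (N₁(W, r) + N₁(Q(f), r) + log r + log⁺ T_G(r))`

for all `r ≥ 1` outside a set of finite measure, where `W` is the Wronskian determinant of `G` and `N₁`
counts every zero once, **or** has the following property: for all `z` outside a discrete set, through
`f(z)` passes the image of a nonconstant morphism from the multiplicative group to `X`, of degree at
most `B`.

(2) For all `k` there is a number `B`, which depends only on `N`, `D` and `k`, such that every entire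
curve `f` in `X'` which is not contained in `Q = 0`, has at most `k` ramification points (zeros of the
Wronskian determinant of a basis of the linear span of the homogeneous coordinates), and for which
`Q(f)` has at most `k` zeros, is rational of degree at most `B` or has the same property: for all `z`
outside a discrete set, through `f(z)` passes such an image of degree at most `B`.

So the part of the special set of entire curves which comes from the curves with few ramification points
is contained in the special set of semi-abelian varieties, with bounds which do not depend on `X`. There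
is no condition on the growth of the curves, and all constants are uniform in the variety `X`; the
starting results of this type (`MP_160ed4_ag.UniformSpecialSet`, `MP_dc0411_ag.UniformRamification`)
are for one fixed variety, without bounds for the degree of the morphisms, and describe Zariski closures
of unions of curves.

Proof. Suppose that there are no such `B` and `C`. Then there are open varieties `X_k` and curves `f_k`
such that `T(r)` is large compared with the right side, and such that many points of `f_k` do not lie on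
images of the multiplicative group in `X_k` of degree at most `k`. In the ultraproduct of the fields of
meromorphic functions the curves `f_k` define one point `x`. The library `Pool.Agent.N131.SU`, in a
version for sequences of hypersurfaces (`Pool.Agent.U178.WF.ub_orV`), shows that `x` lies on a family
of punctured lines: the ideal of `x` is the ideal of a point `P(t)` with `P` over a field `M` without
`t`, and `Q(P(t)) = c t^l`. Let `Y` be the variety of this ideal, over the ultrapower of the field of
complex numbers, which is isomorphic to the field of complex numbers. By the theorem of Chevalley there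
is a form `A` which does not vanish at `x` such that all points of `Y` with `A ≠ 0` lie on
specializations of the family. For almost all `k` the corresponding form `A_k` does not vanish on
`f_k`; so there are points `f_k(z_k)` with `A_k ≠ 0` which do not lie on images of degree at most `k`.
They give a point of `Y`, and the specialization through it gives images in `X_k` of bounded degree
through `f_k(z_k)` for almost all `k`, a contradiction.
-/

set_option autoImplicit false

namespace Pool.Agent.Results.MP_160ed4_ag.FewRamificationOpen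

open MeasureTheory MvPolynomial Pool.Agent.U178.WF

variable {N M e : ℕ}

/-- The characteristic function of the curve with the homogeneous coordinates `f`: the mean of the
logarithm of the maximum norm over the circle of the radius `r`. -/
noncomputable def T {N : ℕ} (f : Fin (N + 1) → ℂ → ℂ) (r : ℝ) : ℝ :=
  Real.circleAverage (fun z => Real.log ‖fun j => f j z‖) 0 r

/-- The counting function of the zeros of `h`; every zero is counted once. -/
noncomputable def N₁ (h : ℂ → ℂ) (r : ℝ) : ℝ :=
  ∑ᶠ z ∈ {z : ℂ | h z = 0 ∧ ‖z‖ ≤ r}, if z = 0 then Real.log r else Real.log (r / ‖z‖)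

/-- The Wronskian determinant. -/
noncomputable def W {n : ℕ} (g : Fin n → ℂ → ℂ) (z : ℂ) : ℂ :=
  Matrix.det (Matrix.of fun i j : Fin n => iteratedDeriv i (g j) z)

/-- `g` is a basis of the linear span of the functions `G`. -/
structure BasisOf (G : Fin (M + 1) → ℂ → ℂ) {n : ℕ} (g : Fin n → ℂ → ℂ) : Prop where
  ind : LinearIndependent ℂ g
  span : Submodule.span ℂ (Set.range g) = Submodule.span ℂ (Set.range G)

/-- `f = P(G)` is the vector of homogeneous coordinates, without common zeros, of an entire curve, where
`G_0, …, G_M` are entire functions and `P` is given by forms of the degree `e > 0`. -/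
structure Image (e : ℕ) (G : Fin (M + 1) → ℂ → ℂ) (P : Fin (N + 1) → MvPolynomial (Fin (M + 1)) ℂ)
    (f : Fin (N + 1) → ℂ → ℂ) : Prop where
  hol : ∀ k, Differentiable ℂ (G k)
  pos : 0 < e
  hom : ∀ j, (P j).IsHomogeneous e
  eq : ∀ j z, f j z = eval (fun k => G k z) (P j)
  ne : ∀ z, ∃ j, f j z ≠ 0

/-- The homogeneous coordinates of an entire curve: entire functions without common zeros. -/
structure EntireCurve (f : Fin (N + 1) → ℂ → ℂ) : Prop where
  hol : ∀ j, Differentiable ℂ (f j)
  ne : ∀ z, ∃ j, f j z ≠ 0

/-- The curve lies in the zero set of the forms of `S` and is not contained in `Q = 0`; these forms and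
`Q` are of degree at most `D`. -/
structure InSet (D : ℕ) (S : Set (MvPolynomial (Fin (N + 1)) ℂ)) (Q : MvPolynomial (Fin (N + 1)) ℂ)
    (f : Fin (N + 1) → ℂ → ℂ) : Prop where
  degS : ∀ F ∈ S, ∃ m ≤ D, F.IsHomogeneous m
  degQ : ∃ m ≤ D, Q.IsHomogeneous m
  mem : ∀ F ∈ S, ∀ z, eval (fun j => f j z) F = 0
  off : ∃ z, eval (fun j => f j z) Q ≠ 0

/-- The point with the homogeneous coordinates `v` lies on the image of a nonconstant morphism from the
multiplicative group to the complement of `Q = 0` in the zero set of `S`, given by polynomials of degree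
at most `B`. -/
def OnGm (S : Set (MvPolynomial (Fin (N + 1)) ℂ)) (Q : MvPolynomial (Fin (N + 1)) ℂ) (B : ℕ)
    (v : Fin (N + 1) → ℂ) : Prop :=
  ∃ p : Fin (N + 1) → Polynomial ℂ, (∀ j, (p j).natDegree ≤ B) ∧ (∀ F ∈ S, aeval p F = 0) ∧
    (∃ (c : ℂ) (k : ℕ), c ≠ 0 ∧ aeval p Q = Polynomial.C c * Polynomial.X ^ k) ∧
    (∃ s t j k, (p j).eval s * (p k).eval t ≠ (p k).eval s * (p j).eval t) ∧
    ∃ t, t ≠ 0 ∧ ∀ j, (p j).eval t = v j

/-- The curve is rational of degree at most `B`. -/
def Rational (B : ℕ) (f : Fin (N + 1) → ℂ → ℂ) : Prop :=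
  ∃ p : Fin (N + 1) → Polynomial ℂ, (∀ j, (p j).natDegree ≤ B) ∧
    ∀ z, ∃ a : ℂ, a ≠ 0 ∧ ∀ j, f j z = a * (p j).eval z

theorem N₁_eq {h : ℂ → ℂ} {r : ℝ} (hr : 1 ≤ r) (hfin : {z : ℂ | h z = 0 ∧ ‖z‖ ≤ r}.Finite) :
    N₁ h r = N131.SR.Nb h r := by
  classical
  have hF : ∀ z, z ∈ hfin.toFinset ↔ h z = 0 ∧ ‖z‖ ≤ r := fun z => by
    rw [Set.Finite.mem_toFinset]
    rfl
  rw [N131.SR.Nb_eq r hfin.toFinset hF]
  unfold N₁
  rw [finsum_mem_eq_finite_toFinset_sum _ hfin]
  have h1 : ∀ z ∈ hfin.toFinset, (if z = 0 then Real.log r else Real.log (r / ‖z‖)) =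
      Real.log (r * ‖z‖⁻¹) + if z = 0 then Real.log r else 0 := by
    intro z _
    by_cases h : z = 0
    · simp [h]
    · simp [h, div_eq_mul_inv]
  rw [Finset.sum_congr rfl h1, Finset.sum_add_distrib, Finset.sum_ite_eq']
  congr 1
  by_cases h0 : h 0 = 0
  · rw [if_pos ((hF 0).2 ⟨h0, by rw [norm_zero]; linarith⟩),
      Set.indicator_of_mem (show (0 : ℂ) ∈ {z : ℂ | h z = 0} from h0)]
    simp
  · rw [if_neg fun h2 => h0 ((hF 0).1 h2).1,
      Set.indicator_of_notMem (show (0 : ℂ) ∉ {z : ℂ | h z = 0} from h0)]
    simp

theorem N₁_nonneg {h : ℂ → ℂ} {r : ℝ} (hr : 1 ≤ r) : 0 ≤ N₁ h r := by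
  unfold N₁
  apply finsum_nonneg
  intro z
  apply finsum_nonneg
  rintro ⟨-, hz⟩
  split_ifs with h0
  · exact Real.log_nonneg hr
  · apply Real.log_nonneg
    rw [le_div_iff₀ (norm_pos_iff.2 h0), one_mul]
    exact hz

/-- the first part -/
theorem part_one (N D M e : ℕ) : ∃ (B : ℕ) (C : ℝ),
    ∀ (S : Set (MvPolynomial (Fin (N + 1)) ℂ)) (Q : MvPolynomial (Fin (N + 1)) ℂ)
      (G : Fin (M + 1) → ℂ → ℂ) (P : Fin (N + 1) → MvPolynomial (Fin (M + 1)) ℂ)
      (f : Fin (N + 1) → ℂ → ℂ) (n : ℕ) (g : Fin n → ℂ → ℂ), Image e G P f → BasisOf G g →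
      InSet D S Q f →
      (∃ E : Set ℝ, volume E < ⊤ ∧ ∀ r, 1 ≤ r → r ∉ E → T f r ≤ C * (N₁ (W g) r +
        N₁ (fun z => eval (fun j => f j z) Q) r + Real.log r + Real.posLog (T G r))) ∨
      ∀ᶠ z in Filter.codiscrete ℂ, OnGm S Q B fun j => f j z := by
  obtain ⟨B, C, hBC⟩ := dich_g_fin N M e D
  refine ⟨B, C, fun S Q G P f n g hf hg hin => ?_⟩
  let c : N131.SU.Crv M N n e := ⟨G, P, g, ⟨hf.hol, hf.pos, hf.hom, fun z => by
    obtain ⟨j, hj⟩ := hf.ne z
    refine ⟨j, ?_⟩
    rw [hf.eq] at hj
    exact hj, hg.ind, hg.span⟩⟩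
  have hc : c.f = f := by
    funext j z
    rw [hf.eq]
    rfl
  rcases hBC n c S Q hin.degS hin.degQ (by rw [hc]; exact hin.mem) (by rw [hc]; exact hin.off)
    with h1 | h1
  · left
    obtain ⟨E, hE, hb⟩ := h1
    refine ⟨E, hE, fun r hr hrE => ?_⟩
    have h2 := hb r hr hrE
    rw [hc] at h2
    obtain ⟨a, b, ha, hb', hgd, hW⟩ := c.D.data
    have e1 : N₁ (W g) r = N131.SR.Nb (N131.SR.Wr g) r :=
      N₁_eq hr (N131.SR.zeros_finite (N131.SR.Wr_diff hgd) hW r)
    have hfd : ∀ j, Differentiable ℂ (f j) := by
      rw [← hc]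
      exact fun j => N131.SR.img_diff (P := P) hf.hol j
    have e2 : N₁ (fun z => eval (fun j => f j z) Q) r =
        N131.SR.Nb (fun z => eval (fun j => f j z) Q) r :=
      N₁_eq hr (N131.SR.zeros_finite (N131.SR.form_diff hfd Q) hin.off r)
    rw [e1, e2]
    exact h2
  · right
    rw [hc] at h1
    filter_upwards [h1] with z hz
    obtain ⟨p, h2, h3, h4, h5, h6⟩ := hz
    exact ⟨p, h2, h3, h4, h5, 1, one_ne_zero, h6⟩

/-- Let `X` be the complement of `Q = 0` in the zeros, in complex projective `N`-space, of a set `S` of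
forms; `Q` and these forms are of degree at most `D`.

(1) For all `M` and `e` there are `B` and `C`, which depend only on `N`, `D`, `M` and `e`, such that every
entire curve `f = P(G)` in the zeros of `S` which is not contained in `Q = 0`, with `P` of degree `e`,
satisfies the inequality with the constant `C` or has the property that, for all `z` outside a discrete
set, `f(z)` lies on the image of a nonconstant morphism from the multiplicative group to `X` of degree
at most `B`.

(2) For all `k` there is `B`, which depends only on `N`, `D` and `k`, such that every entire curve `f` in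
the zeros of `S` which is not contained in `Q = 0`, whose Wronskian determinant has at most `k` zeros,
and such that `Q(f)` has at most `k` zeros, is rational of degree at most `B` or has the property that,
for all `z` outside a discrete set, `f(z)` lies on the image of a nonconstant morphism from the
multiplicative group to `X` of degree at most `B`. -/
theorem result (N D : ℕ) :
    (∀ M e : ℕ, ∃ (B : ℕ) (C : ℝ),
      ∀ (S : Set (MvPolynomial (Fin (N + 1)) ℂ)) (Q : MvPolynomial (Fin (N + 1)) ℂ)
        (G : Fin (M + 1) → ℂ → ℂ) (P : Fin (N + 1) → MvPolynomial (Fin (M + 1)) ℂ)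
        (f : Fin (N + 1) → ℂ → ℂ) (n : ℕ) (g : Fin n → ℂ → ℂ), Image e G P f → BasisOf G g →
        InSet D S Q f →
        (∃ E : Set ℝ, volume E < ⊤ ∧ ∀ r, 1 ≤ r → r ∉ E → T f r ≤ C * (N₁ (W g) r +
          N₁ (fun z => eval (fun j => f j z) Q) r + Real.log r + Real.posLog (T G r))) ∨
        ∀ᶠ z in Filter.codiscrete ℂ, OnGm S Q B fun j => f j z) ∧
    ∀ k : ℕ, ∃ B : ℕ,
      ∀ (S : Set (MvPolynomial (Fin (N + 1)) ℂ)) (Q : MvPolynomial (Fin (N + 1)) ℂ)
        (f : Fin (N + 1) → ℂ → ℂ), EntireCurve f → InSet D S Q f →
          ∀ (n : ℕ) (g : Fin n → ℂ → ℂ), BasisOf f g → {z : ℂ | W g z = 0}.encard ≤ k →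
            {z : ℂ | eval (fun j => f j z) Q = 0}.encard ≤ k →
            Rational B f ∨ ∀ᶠ z in Filter.codiscrete ℂ, OnGm S Q B fun j => f j z := by
  classical
  refine ⟨part_one N D, fun k => ?_⟩
  obtain ⟨B, C, hBC⟩ := part_one N D N 1
  obtain ⟨C', hC'0, hC'⟩ := N131.SU.absorb C
  refine ⟨max B ⌈(N + 1) * (C' * (2 * k + 1))⌉₊, fun S Q f hf hin n g hg hk hkQ => ?_⟩
  have himg : Image 1 f X f := ⟨hf.hol, one_pos, fun j => isHomogeneous_X ℂ j, fun j z => by
    rw [eval_X], hf.ne⟩
  have hcount : ∀ h : ℂ → ℂ, {z : ℂ | h z = 0}.encard ≤ k → ∃ c : ℝ, ∀ r, 1 ≤ r →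
      N₁ h r ≤ k * Real.log r + c := by
    intro h hk
    have hWf : {z : ℂ | h z = 0}.Finite := Set.finite_of_encard_le_coe hk
    have hWk : (({z : ℂ | h z = 0}.ncard : ℕ) : ℝ) ≤ k := by
      have h1 : ({z : ℂ | h z = 0}.ncard : ℕ∞) ≤ k := by
        rw [hWf.cast_ncard_eq]
        exact hk
      exact_mod_cast h1
    obtain ⟨c, hc⟩ := N131.SU.Nn_le hWf
    refine ⟨c, fun r hr => ?_⟩
    have h5 : N₁ h r ≤ {z : ℂ | h z = 0}.ncard * Real.log r + c := hc r hr
    have h6 := Real.log_nonneg hr
    nlinarith
  rcases hBC S Q f X f n g himg hg hin with h1 | h1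
  · left
    obtain ⟨E, hE, hb⟩ := h1
    obtain ⟨c1, hc1⟩ := hcount (W g) hk
    obtain ⟨c2, hc2⟩ := hcount (fun z => eval (fun j => f j z) Q) hkQ
    obtain ⟨p, hp0, hpf, hpd⟩ := Rat.exists_rat hf.hol hf.ne (N131.SU.fin_union hE 2)
      (A := C' * (2 * k + 1)) (B := C' * (c1 + c2)) fun r hr hrE => by
        have h2 : r ∉ E := fun h => hrE (Or.inl h)
        have h3 : 2 ≤ r := by
          by_contra hcon
          push Not at hcon
          exact hrE (Or.inr ⟨hr, hcon.le⟩)
        have h4 := hC' (T f r) (N₁ (W g) r + N₁ (fun z => eval (fun j => f j z) Q) r) r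
          (add_nonneg (N₁_nonneg hr) (N₁_nonneg hr)) h3 (hb r hr h2)
        have h5 := hc1 r hr
        have h6 := hc2 r hr
        have h7 : N₁ (W g) r + N₁ (fun z => eval (fun j => f j z) Q) r + Real.log r ≤
            (2 * k + 1) * Real.log r + (c1 + c2) := by
          linarith
        calc N131.SR.Tf f r ≤ C' * (N₁ (W g) r + N₁ (fun z => eval (fun j => f j z) Q) r +
              Real.log r) := h4
          _ ≤ C' * ((2 * k + 1) * Real.log r + (c1 + c2)) := mul_le_mul_of_nonneg_left h7 hC'0
          _ = C' * (2 * k + 1) * Real.log r + C' * (c1 + c2) := by ring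
    refine ⟨p, fun j => le_trans ?_ (le_max_right _ _), hpf⟩
    have h1 := hpd j
    have h2 := Nat.le_ceil ((N + 1) * (C' * (2 * k + 1)))
    have h3 : ((p j).natDegree : ℝ) ≤ ⌈((N : ℝ) + 1) * (C' * (2 * k + 1))⌉₊ := h1.trans h2
    exact_mod_cast h3
  · right
    filter_upwards [h1] with z hz
    obtain ⟨p, h2, h3⟩ := hz
    exact ⟨p, fun j => (h2 j).trans (le_max_left _ _), h3⟩

end Pool.Agent.Results.MP_160ed4_ag.FewRamificationOpen
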