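import Pool.Agent.U647.GB.Fsb

/-!
# The special sets of affine surfaces over complex tori

Let `V` be an irreducible affine surface: `y` is its generic point in homogeneous coordinates, with
function field `K`, `VarPts ℂ y` is (the cone over) its closure in projective space, and `V` is the
part outside of the hyperplane `AtInf n` at infinity. We assume (`MapsToTorus y`) that the closure of
`V` has a nonconstant holomorphic map `α` to a complex torus of any dimension (for instance the
Albanese map, if the closure is an irregular surface). The fibres of `α` are assumed to lie in the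
members of a nonconstant pencil, which is always the case for algebraic `α`. There is no hypothesis on
the boundary. For all these surfaces:

* (1) `V` is of log general type if and only if (2) the special set `Sp_alg(V)` is not `V`;
* `Sp_sab(V)` is contained in `Sp_h(V)`, this set in `Sp_p(V)`, and if `V` is of log general type then
  `Sp_alg(V)` is contained in `Sp_sab(V)`;
* (1), and also (5), implies that only finitely many closed curves in `V` are not of log general type,
  which is equivalent to: `V` is not covered by images of the multiplicative group.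

Assume in addition (`OverTorus y`) that the points at infinity lie in a Brody hyperbolic projective
set (for instance curves of genus at least two) or in finitely many fibres of `α`: the components of
the boundary which are contracted by `α` may still be arbitrary curves. Then moreover:

* `Sp_h(V) = Sp_sab(V)` is contained in `Sp_alg(V)`, and equal to it if `V` is of log general type;
* (1) and (2) imply (4), and (4) is equivalent to (5) and to: only finitely many closed curves in `V`
  are not of log general type, and each nonconstant entire curve in `V` has one of them as its closure.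
-/

set_option autoImplicit false

open MvPolynomial

namespace Pool.Agent.Results.MP_160ed4_ag.IrregularAffineSurfaces

open Pool.Agent.W602.GT (IsForm coords)
open Pool.Agent.N254.SQ (Eqs LogGeneral OnSpecialQ OnCurvesQ OnDiscsQ)
open Pool.Agent.U207.QC (OnSabQ)
open Pool.Agent.V1153.UG (GmRuled)
open Pool.Agent.U647.GB (MapsToTorus OverTorus ProperForm AtInf SpecialCurves FinitelySpecial Iy
  free_five ggl_five)

theorem result {n : ℕ} {K : Type} [Field K] [Algebra ℂ K] (y : Fin (n + 1) → K) (hy0 : y 0 ≠ 0)
    (hgen : coords ℂ y = ⊤) (hw : Algebra.trdeg ℂ K = (2 : ℕ)) :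
    (MapsToTorus y →
      (∀ G : MvPolynomial (Fin (n + 1)) ℂ, IsForm G →
        (OnDiscsQ (Eqs y) (AtInf n) G → OnCurvesQ (Eqs y) (AtInf n) G) ∧
        (OnCurvesQ (Eqs y) (AtInf n) G → OnSabQ (Eqs y) (AtInf n) G) ∧
        (LogGeneral (AtInf n) K 2 y →
          (OnSabQ (Eqs y) (AtInf n) G → OnSpecialQ (Eqs y) (AtInf n) G))) ∧
      (LogGeneral (AtInf n) K 2 y ↔ ProperForm y (OnSpecialQ (Eqs y) (AtInf n))) ∧
      (LogGeneral (AtInf n) K 2 y → (SpecialCurves y).Finite) ∧
      (ProperForm y (OnSabQ (Eqs y) (AtInf n)) → (SpecialCurves y).Finite) ∧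
      ((SpecialCurves y).Finite ↔ ¬ GmRuled (Iy y) (X 0))) ∧
    (OverTorus y →
      (∀ G : MvPolynomial (Fin (n + 1)) ℂ, IsForm G →
        (OnCurvesQ (Eqs y) (AtInf n) G ↔ OnSabQ (Eqs y) (AtInf n) G) ∧
        (OnSpecialQ (Eqs y) (AtInf n) G → OnCurvesQ (Eqs y) (AtInf n) G) ∧
        (LogGeneral (AtInf n) K 2 y →
          (OnCurvesQ (Eqs y) (AtInf n) G ↔ OnSpecialQ (Eqs y) (AtInf n) G))) ∧
      (ProperForm y (OnSpecialQ (Eqs y) (AtInf n)) → ProperForm y (OnCurvesQ (Eqs y) (AtInf n))) ∧
      [ProperForm y (OnCurvesQ (Eqs y) (AtInf n)), ProperForm y (OnSabQ (Eqs y) (AtInf n)),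
        FinitelySpecial y].TFAE) := by
  refine ⟨free_five hy0 hgen hw, fun hT => ?_⟩
  obtain ⟨h1, -, h3, -, h5⟩ := ggl_five hy0 hgen hw hT
  exact ⟨fun G hG => ⟨(h1 G hG).1, (h1 G hG).2.1, (h1 G hG).2.2.2⟩, h3, h5⟩

end Pool.Agent.Results.MP_160ed4_ag.IrregularAffineSurfaces
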