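import Pool.Agent.U173.MP.Her
import Pool.Agent.U173.MP.Rat2

/-!
# The five conditions for varieties which carry a map with many preperiodic points

`X` is a complex projective variety of dimension `w ≥ 1`, given by its function field `K` and the
homogeneous coordinates `x` of its generic point; `coords ℂ x = ⊤` says that `K` is generated by the
ratios of the coordinates. (So for a given `K` the theorem speaks about all projective varieties
birational to `X`, smooth or not.)

`ManyPrep ℂ d B p q` (`Pool/Agent/Q103/EC/Mxv.lean`): `f = p / q` is a rational map of the projective
line over `K` of degree `d` (a family of rational maps over an open subset of `X`) with at least `B`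
preperiodic points in `P^1(K)` (preperiodic rational sections; a point is preperiodic if its orbit
is finite), and the moduli map from `X` to the space `M_d` of the conjugacy classes of the maps of
degree `d` is generically finite: if `f` is conjugate over an algebraic closure of `K` to a map with
coefficients algebraic over a field `F` between `ℂ` and `K`, then `K` is algebraic over `F`.

`GeneralType ℂ K w` (`Pool/Agent/W602/GT/Defs.lean`): the transcendence degree of `K` is `w`, and for
some `N > 0` there are `w + 1` `N`-canonical forms, regular at all prime divisors of all models of `K`,
whose ratios contain `w` algebraically independent functions; so the Kodaira dimension of the smooth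
models is `w`.

`HypOff x R` (`Pool/Agent/Q103/EC/Hyp.lean`): `Z = {R = 0}` is a proper closed subset of `X` (`R` is a
form which does not vanish at the generic point), and this one closed set `Z` satisfies

* (`sub`) all closed subvarieties of `X` of positive dimension which are not contained in `Z` are of
  general type: condition (2);
* (`disc`) `Z` contains the images of all holomorphic maps from the punctured disc to `X` with an
  essential singularity (which do not extend to the disc): condition (3);
* (`curve`) `Z` contains all nonconstant entire curves in `X`: condition (4);
* (`mero`) `Z` contains the images of all nonconstant meromorphic maps from the spaces `ℂ ^ g` to `X`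
  (`t ↦ (h 0 t : ... : h M t)` with entire functions `h i` on `ℂ ^ g`), in particular of all
  nonconstant rational maps from semi-abelian varieties, composed with the universal cover:
  condition (5);
* (`torus`) `Z` contains the images of all nonconstant morphisms from the multiplicative group;
* (`pointed`) for every pointed curve there are only finitely many morphisms to `X` with a given value
  outside of `Z` at the marked point;
* (`degree`) the degree of the morphisms from a curve of genus `g` to `X`, with an image not contained in
  `Z`, is at most `A * max (2 * g - 2) 0`, for one constant `A`;
* (`kobayashi`) the Kobayashi pseudodistance of two different points of `X` which are not both in `Z` is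
  positive.

The theorem: for each `d ≥ 2` there is a `B` such that all complex projective varieties, of arbitrary
dimension, which carry such a map of degree `d` with at least `B` preperiodic points are of general
type and satisfy all this. So the five conditions of the generalised Green-Griffiths-Lang conjecture
hold for them, all with the same exceptional set `Z`. Moreover every closed subvariety `Y` of `X` which is
not contained in `Z` satisfies all this again, with a proper closed subset of `Y` as exceptional set.
(The same is then true for all open subsets of `X`: the closure of a subvariety is of general type; maps
to the open subset are maps to `X`.)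

Each such `B` is at least `2 d + 2`: the projective space of dimension `2 d - 2` carries a map of degree
`d` with `2 d + 1` preperiodic points and generically finite moduli map (`K` is the field of the rational
functions of the `v i`).

The last part gives examples, of dimension `2 d - 2`, for all numbers `n` of preperiodic points: the
components of the moduli spaces of the maps of degree `d` with a marked point of exact period `n`.

Proof. The five conditions for `X` are in the starting library (projects EC and KO of helper103, GT of
helper41 and others): the Wronskian type determinants `det (x_l ^ i (D x_l) ^ j)` for preperiodic points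
`x_l`, suitably normalised, are symmetric differential forms which are regular on all models and vanish at
the poles of the cross ratios of the preperiodic points. For subvarieties we specialise the map and its
preperiodic points (`Pool/Agent/U173/MP/Her.lean`). The rational examples
(`Pool/Agent/U173/MP/Rat.lean`, `Rat2.lean`): a map of degree `d` with a cycle `∞, 0, 1, v 1, …, v (2 d - 2)`
is determined by the cycle, so its coefficients are rational functions of the `v i`.
-/

set_option autoImplicit false

namespace Pool.Agent.Results.MP_160ed4_ag.ManyPreperiodicFive

open Polynomial
open Pool.Agent.W602.GT
open Pool.Agent.TH466.QG (SubOf)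
open Pool.Agent.Q103.EC (ManyPrep HypOff)

/-- All complex projective varieties `X` (given by `K` and `x`) which carry a map of degree `d` with at
least `B` preperiodic points and generically finite moduli map are of general type if the dimension is
positive, and hyperbolic modulo a proper closed subset `{R = 0}`, and the closed subvarieties (given by `E`
and `z`) not contained in `{R = 0}` are hyperbolic modulo proper closed subsets of their own. -/
def HyperbolicBound (d B : ℕ) : Prop :=
  ∀ (K : Type) [Field K] [Algebra ℂ K] (p q : K[X]), ManyPrep ℂ d B p q →
    (∀ w : ℕ, 1 ≤ w → Algebra.trdeg ℂ K = w → GeneralType ℂ K w) ∧
    ∀ (M : ℕ) (x : Fin (M + 1) → K), x ≠ 0 → coords ℂ x = ⊤ → ∃ R, HypOff x R ∧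
      ∀ (E : Type) [Field E] [Algebra ℂ E] (z : Fin (M + 1) → E), SubOf ℂ x z → val z R ≠ 0 →
        ∃ R', HypOff z R'

/-- **The five conditions for varieties which carry a map with many preperiodic points**: see the
explanation at the beginning of the file. -/
theorem result (d : ℕ) (hd : 2 ≤ d) :
    (∃ B : ℕ, HyperbolicBound d B) ∧
    (∀ B : ℕ, HyperbolicBound d B → 2 * d + 2 ≤ B) ∧
    (∃ (K : Type) (_ : Field K) (_ : Algebra ℂ K) (p q : K[X]) (v : Fin (2 * d - 2) → K),
      ManyPrep ℂ d (2 * d + 1) p q ∧ AlgebraicIndependent ℂ v ∧
        IntermediateField.adjoin ℂ (Set.range v) = ⊤) ∧
    ∀ n : ℕ, 3 ≤ n → ∃ (K : Type) (_ : Field K) (_ : Algebra ℂ K) (p q : K[X]),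
      ManyPrep ℂ d n p q ∧ Algebra.trdeg ℂ K = (2 * d - 2 : ℕ) := by
  refine ⟨Pool.Agent.U173.MP.hyp_sub d hd, fun B hB => ?_, Pool.Agent.U173.MP.exists_rational d hd,
    Pool.Agent.Q103.EC.exists_many d hd⟩
  by_contra hlt
  obtain ⟨K, _, _, p, q, v, h, hv, hgen⟩ := Pool.Agent.U173.MP.exists_rational d hd
  have h1 : ManyPrep ℂ d B p q :=
    ⟨h.coprime, h.deg, h.maxVar, le_trans (by exact_mod_cast (by omega : B ≤ 2 * d + 1)) h.many⟩
  obtain ⟨-, h2⟩ := hB K p q h1
  obtain ⟨R, hR, -⟩ := h2 (2 * d - 2) (Fin.cons 1 v) (by
    intro h0
    have := congrFun h0 0
    simp at this) (Pool.Agent.U173.MP.coords_cons hgen)
  exact Pool.Agent.U173.MP.not_hypOff (by omega) hv R hR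

end Pool.Agent.Results.MP_160ed4_ag.ManyPreperiodicFive
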