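import Pool.Agent.U207.QC.SbT

/-!
# Smooth intersections of quadrics with prescribed special subsets

Let `X = V(S)` be any projective variety in `P^n`, `n ≥ 1` (any dimension and any singularities), given
by forms of degree at most `d`, `d ≥ 3`, and `v : P^n → P^N` the Veronese embedding of degree `d`. For
all `c ≥ (2 (N + 1)^3 + 6 N + 5)^2` there are quadratic forms `P_i` and linear forms `ℓ_i`, `i < c`, such
that the covering of `P^N` with group `(ℤ/2)^c`

`Y : x_i^2 = P_i(h_0, …, h_N), i < c`, in `P^{N+c}`,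

is a smooth complete intersection of `c` quadrics, `P_i = ℓ_i^2` on `v(X)`, so that `Y` contains the
`2^c` sheets `x_i = ± ℓ_i(h)`, `h ∈ v(X)`, and

* (1) every closed subvariety of `Y` of dimension `> n`, in particular `Y`, is of general type;
* (2) every closed subvariety of `Y` of positive dimension which does not lie over `v(X)` is of
  general type;
* (3) every holomorphic map from the punctured disc to `Y` extends or lies over `v(X)`;
* (4), (5) every nonconstant meromorphic map from `ℂ^k` to `Y` (in particular every entire curve, and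
  every rational map from a semi-abelian variety) lies over `v(X)`.

Let moreover `U = V(S) ∖ V(T)` be a quasi-projective variety. There is a set `T'` of forms on `P^N`
(finite if `T` is finite) such that the sheets over `U` are closed subvarieties of the smooth variety
`W`, the inverse image of `P^N ∖ V(T')` in `Y`, and the four special subsets `Sp_alg(W)`, `Sp_p(W)`,
`Sp_h(W)`, `Sp_sab(W)` are the unions of those of the `2^c` sheets.

Proof. See `Pool/Agent/U207/QC`. `v(X)` is given by quadratic forms `q_m` whose Jacobian matrix has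
rank `≥ N - n > n` at all points of `v(X)`. Let `Q_t = ∑ C_{tm} q_m`, `t < s`, and
`P_i = (∑_j a_i^j h_j)^2 + ∑_t a_i^{B + κ t} Q_t(h)` with `C_{tm}`, `a_i` algebraically independent over a
countable field of definition. `P_i(h)` is the value at the node `a_i` of a polynomial in one variable
with coefficients depending on `h`: the first part, the square of a polynomial of degree `N`, and the
second part `a^B R(a^κ)` do not interfere. For a point of `Y` in a field with a derivation the method of
Büchi's problem (Vojta, Pasten) shows that this polynomial is a square up to a factor, and then an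
argument with the derivative shows that all ratios of the `h_j` are constants or all `Q_t(h)` are
zero; for subvarieties this is done with logarithmic pluricanonical forms. A map from a semi-abelian
variety is restricted to lines. The condition on the codimension is transferred through the values of
the map: near a point of `ℂ^g × (ℂ^*)^r` at which the map to `W` is defined, the map to `U` is defined.
-/

set_option autoImplicit false

namespace Pool.Agent.Results.MP_160ed4_ag.QuadricCoverSpecial

open MvPolynomial Metric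
open Pool.Agent.W602.GT (SubVar GeneralType)
open Pool.Agent.N254.SQ (IsForm Extends OnSpecialQ OnCurvesQ OnDiscsQ Monomials veronese)
open Pool.Agent.U207.QC (hI coverForm coverEqs SmoothCover Signs onSheet OnSabQ)

section

variable {n N c : ℕ} (P : Fin c → MvPolynomial (Fin (N + 1)) ℂ)
  (m : Fin (N + 1) → Fin (n + 1) → ℕ) (S : Set (MvPolynomial (Fin (n + 1)) ℂ))

/-- every closed subvariety of `Y` of dimension `> n` is of general type -/
def Property1 (n : ℕ) : Prop :=
  ∀ (L : Type) [Field L] [Algebra ℂ L] (w : ℕ) (y : Fin (N + c + 1) → L), n < w →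
    SubVar (coverForm P) L w y → GeneralType ℂ L w

/-- closed subvarieties of `Y` of positive dimension are of general type or lie over `v(X)` -/
def Property2 : Prop :=
  ∀ (L : Type) [Field L] [Algebra ℂ L] (w : ℕ) (y : Fin (N + c + 1) → L), 1 ≤ w →
    SubVar (coverForm P) L w y → GeneralType ℂ L w ∨
      ∃ (x : Fin (n + 1) → L) (s : L), x ≠ 0 ∧ s ≠ 0 ∧ (∀ p ∈ S, aeval x p = 0) ∧
        y ∘ hI N c = s • veronese m x

/-- holomorphic maps from the punctured disc to `Y` extend or lie over `v(X)` -/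
def Property3 : Prop :=
  ∀ f : ℂ → Fin (N + c + 1) → ℂ, DifferentiableOn ℂ f (ball 0 1 \ {0}) →
    (∃ w ∈ ball (0 : ℂ) 1 \ {0}, f w ≠ 0) →
    (∀ w ∈ ball (0 : ℂ) 1 \ {0}, ∀ i, eval (f w) (coverForm P i) = 0) →
    Extends f ∨ ∀ w ∈ ball (0 : ℂ) 1 \ {0}, f w ≠ 0 →
      ∃ x : Fin (n + 1) → ℂ, x ≠ 0 ∧ (∀ p ∈ S, eval x p = 0) ∧ f w ∘ hI N c = veronese m x

/-- nonconstant meromorphic maps from `ℂ^k` to `Y`, given by vectors of entire functions, lie over
`v(X)` -/
def Property45 : Prop :=
  ∀ (k : ℕ) (f : (Fin k → ℂ) → Fin (N + c + 1) → ℂ), Differentiable ℂ f →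
    (∀ z i, eval (f z) (coverForm P i) = 0) → (∃ z z' i j, f z i * f z' j ≠ f z j * f z' i) →
    ∀ z, f z ≠ 0 → ∃ x : Fin (n + 1) → ℂ, x ≠ 0 ∧ (∀ p ∈ S, eval x p = 0) ∧
      f z ∘ hI N c = veronese m x

end

open Pool.Agent.N254.SQ (t_num) in
open Pool.Agent.U207.QC in
theorem result (n d : ℕ) (hn : 1 ≤ n) (hd : 3 ≤ d) :
    ∃ (N : ℕ) (m : Fin (N + 1) → Fin (n + 1) → ℕ),
      Monomials n N d m ∧ 2 * n < N ∧ ∀ c, (2 * (N + 1) ^ 3 + 6 * N + 5) ^ 2 ≤ c →
        ∀ S : Set (MvPolynomial (Fin (n + 1)) ℂ), (∀ p ∈ S, ∃ e ≤ d, p.IsHomogeneous e) →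
        ∃ P ℓ : Fin c → MvPolynomial (Fin (N + 1)) ℂ,
          (∀ i, (P i).IsHomogeneous 2) ∧ (∀ i, (ℓ i).IsHomogeneous 1) ∧ SmoothCover P ∧
          (∀ x : Fin (n + 1) → ℂ, (∀ p ∈ S, eval x p = 0) →
            ∀ i, eval (veronese m x) (P i) = eval (veronese m x) (ℓ i) ^ 2) ∧
          Property1 P n ∧ Property2 P m S ∧ Property3 P m S ∧ Property45 P m S ∧
          ∀ T : Set (MvPolynomial (Fin (n + 1)) ℂ), (∀ H ∈ T, IsForm H) →
            ∃ T' : Set (MvPolynomial (Fin (N + 1)) ℂ), (∀ H ∈ T', IsForm H) ∧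
              (T.Finite → T'.Finite) ∧
              (∀ x : Fin (n + 1) → ℂ, (∀ H ∈ T', eval (veronese m x) H = 0) ↔
                ∀ H ∈ T, eval x H = 0) ∧
              ∀ G, IsForm G →
                (OnSpecialQ (coverEqs P) (rename (hI N c) '' T') G ↔
                  ∀ ℓ', Signs ℓ ℓ' → OnSpecialQ S T (onSheet m ℓ' G)) ∧
                (OnDiscsQ (coverEqs P) (rename (hI N c) '' T') G ↔
                  ∀ ℓ', Signs ℓ ℓ' → OnDiscsQ S T (onSheet m ℓ' G)) ∧
                (OnCurvesQ (coverEqs P) (rename (hI N c) '' T') G ↔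
                  ∀ ℓ', Signs ℓ ℓ' → OnCurvesQ S T (onSheet m ℓ' G)) ∧
                (OnSabQ (coverEqs P) (rename (hI N c) '' T') G ↔
                  ∀ ℓ', Signs ℓ ℓ' → OnSabQ S T (onSheet m ℓ' G)) := by
  obtain ⟨N, m, hm, hN⟩ := t_num n d hn hd
  refine ⟨N, m, ⟨hm.deg, hm.inj, hm.surj⟩, hN, fun c hc S hS1 => ?_⟩
  obtain ⟨P, ℓ, hsm, hg⟩ := exists_cover hn hd hm hN S hS1 c hc
  have h4 : Property2 P m S := fun L _ _ w y hw hy => hg.special L w y hw (sub_set hy)
  refine ⟨P, ℓ, hg.homP, hg.homL, hsm, fun x hx i => hg.sub ℂ x hx i, ?_, h4,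
    fun f h1 h2 h3 => hg.discs f ⟨h1, h2, h3⟩, ?_, fun T hT => ?_⟩
  · intro L _ _ w y hw hy
    rcases h4 L w y (by omega) hy with h1 | h1
    · exact h1
    · have := dim_over hg hy h1
      omega
  · intro k f hf hmem hne z hz
    refine key_line (𝒜 := coverEqs P) (R := fun v => ∃ x : Fin (n + 1) → ℂ, x ≠ 0 ∧
      (∀ p ∈ S, eval x p = 0) ∧ v ∘ hI N c = veronese m x) ?_ ?_ ?_ f hf ?_ hne z hz
    · rintro _ ⟨i, rfl⟩
      exact ⟨2, cover_hom hg.homP i⟩
    · rintro s v hs ⟨x, hx, hxS, hxv⟩
      obtain ⟨μ, hμ⟩ := IsAlgClosed.exists_pow_nat_eq s (show 0 < d by omega)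
      have hμ0 : μ ≠ 0 := by
        rintro rfl
        rw [zero_pow (by omega)] at hμ
        exact hs hμ.symm
      refine ⟨μ • x, smul_ne_zero hμ0 hx, fun r hr => ?_, ?_⟩
      · obtain ⟨e, he⟩ := hg.homS r hr
        rw [Pool.Agent.N254.SQ.eval_scale he, hxS r hr, mul_zero]
      · have h5 : (s • v) ∘ hI N c = s • (v ∘ hI N c) := rfl
        have h6 : veronese m (μ • x) = μ ^ d • veronese m x :=
          Pool.Agent.N254.SQ.ver_smul hm μ x
        rw [h5, h6, hμ, hxv]
    · intro f h1 h2 h3
      exact hg.curves f h1 h2 fun z i => h3 z _ ⟨i, rfl⟩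
    · rintro p _ ⟨i, rfl⟩
      exact hmem p i
  obtain ⟨T', hT', hfin, hl⟩ := exists_liftT hm hg.hd1 T hT
  refine ⟨T', hT', hfin, lifts_zero hg.hd1 hl, ?_⟩
  intro G hG
  exact ⟨covT_special n N d c m S P ℓ hg T T' hl G hG, covT_discs n N d c m S P ℓ hg T T' hl G hG,
    covT_curves n N d c m S P ℓ hg T T' hl G hG, covT_sab n N d c m S P ℓ hg T T' hl G hG⟩

end Pool.Agent.Results.MP_160ed4_ag.QuadricCoverSpecial
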